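import Pool.Agent.Lib.TG9.Defs2
import Pool.Agent.Lib.TG_h51.Emb
import Pool.Agent.Lib.TG.Basic

/-!
# TANK G, BC9: ROW ABS, the count of local degrees, reduction to `r` automorphisms
-/

set_option autoImplicit false

namespace Pool.Agent.TG9

open Pool.Agent.TG (Ov ZDim IsMin IsModel Bir ch chN stab LDeg ncl up mem_up
  relIndex_fixing_eq_ncard mem_stab)
open Pool.Agent.LU2 (locV)
open Pool.Agent.TG15 (Gt Tp hx smulK)
open Module Filter

universe u

/-- The core of the row ABS: `r` automorphisms in the stabiliser of the centre of `W`, different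
on `E`. -/
def AbsCore (k F E : Type u) [Field k] [Field F] [Field E] [Algebra k F] [Algebra k E]
    [Algebra F E] [IsScalarTower k F E] (d : ℕ) : Prop :=
  IsAlgClosed k → Algebra.trdeg k F = d → ∀ (C C' : ℕ → Submodule k E) (α β : ℕ)
    (i₀ : Fin (d + 1)) (y : Fin (d + 1) → F),
    0 < β → β < α → (∀ m, C' m ≤ C m) → (∀ m, (C m).FG) →
    (∀ a b, C a * C b ≤ C (a + b)) → (∀ i, algebraMap F E (y i) ∈ C 1) → y i₀ = 1 →
    (∀ x : E, ∃ m, ∃ a ∈ C m, ∃ b ∈ C m, b ≠ 0 ∧ x = a / b) →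
    IntermediateField.adjoin k (Set.range y) = ⊤ →
    ∀ (A : ValuationSubring E), ZDim k A → (∀ i, algebraMap F E (y i) ∈ A) →
    (∀ B : ValuationSubring E, SameC k (Set.range fun i => algebraMap F E (y i)) A B →
      ∀ m, ∀ a ∈ C' m, ∃ (i : Fin (d + 1)) (γ : k),
        A.valuation (algebraMap F E (y i) - algebraMap k E γ) < 1 ∧
        B.valuation a ^ β ≤
          B.valuation (algebraMap F E (y i) - algebraMap k E γ) ^ (α * m)) →
    ∀ (N : Type u) [Field N] [Algebra k N] [Algebra F N] [IsScalarTower k F N]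
      [FiniteDimensional F N] [IsGalois F N] (j : E →ₐ[F] N) (W : ValuationSubring N),
      W.comap (j : E →+* N) = A →
    ∀ (r : ℕ) (σ : Fin r → (N ≃ₐ[F] N)),
      (∀ s, ∀ b : N, IsIntegral (Algebra.adjoin k (Set.range fun i => algebraMap F N (y i))) b →
        (W.valuation b < 1 ↔ W.valuation (σ s b) < 1)) →
      (∀ s s', s ≠ s' → ∃ x : E, σ s (j x) ≠ σ s' (j x)) →
      ∃ e₀ : ℕ, ∀ e ≥ e₀, ∀ᶠ m : ℕ in atTop,
        finrank k (C' (m + e)) + r * (m + d).choose d ≤ finrank k (C (m + e))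

variable {k F E : Type u} [Field k] [Field F] [Field E] [Algebra k F] [Algebra k E]
    [Algebra F E] [IsScalarTower k F E]

theorem absStmt_of_core {d : ℕ} (hcore : AbsCore k F E d) : AbsStmt k F E d := by
  classical
  intro halg htr C C' α β i₀ y hβ hαβ hCC hfg hmul hy hy₀ hfrac hgen A hA hyA hB
    N _ _ _ _ _ _ j W hW r hr
  rw [relIndex_fixing_eq_ncard] at hr
  set R := locV (W.comap (algebraMap F N)) (Algebra.adjoin k (Set.range y)) with hRdef
  set S := Set.range fun σ : stab W R => ((σ : N ≃ₐ[F] N) : N →ₐ[F] N).comp j with hS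
  have hSfin : S.Finite := Set.finite_range _
  obtain ⟨S', hS'S, hS'card⟩ : ∃ S' : Set (E →ₐ[F] N), S' ⊆ S ∧ S'.ncard = r :=
    Set.exists_subset_card_eq hr
  have hS'fin : S'.Finite := hSfin.subset hS'S
  have : Fintype S' := hS'fin.fintype
  have hcard : Fintype.card S' = r := by
    rw [← hS'card, Set.ncard_eq_toFinset_card', Set.toFinset_card]
  let e : Fin r ≃ S' := (Fintype.equivFinOfCardEq hcard).symm
  have hch : ∀ s : Fin r, ∃ σ : stab W R, ((σ : N ≃ₐ[F] N) : N →ₐ[F] N).comp j = (e s : E →ₐ[F] N) :=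
    fun s => hS'S (e s).2
  choose σ hσ using hch
  refine hcore halg htr C C' α β i₀ y hβ hαβ hCC hfg hmul hy hy₀ hfrac hgen A hA hyA hB
    N j W hW r (fun s => (σ s : N ≃ₐ[F] N)) ?_ ?_
  · intro s b hb
    have h1 : Algebra.adjoin k (Set.range fun i => algebraMap F N (y i)) ≤ up N R := by
      refine Algebra.adjoin_le ?_
      rintro _ ⟨i, rfl⟩
      exact (mem_up (N := N)).2 ⟨y i, ⟨y i, Algebra.subset_adjoin ⟨i, rfl⟩, 1, Subalgebra.one_mem _,
        map_one _, (div_one _).symm⟩, rfl⟩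
    exact (mem_stab.1 (σ s).2 b (TG.ncl_mono h1 hb)).symm
  · intro s s' hss
    by_contra hcon
    push Not at hcon
    apply hss
    apply e.injective
    apply Subtype.ext
    rw [← hσ s, ← hσ s']
    exact AlgHom.ext fun x => hcon x

end Pool.Agent.TG9
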