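import Pool.Agent.Lib.TG9.Defs

/-!
# TANK G, BC9: row BIG
-/

set_option autoImplicit false

namespace Pool.Agent.TG9

open Cardinal

universe u

/-- ROW BIG: over an uncountable algebraically closed field every countable subset has infinitely
many algebraically independent elements over it. -/
theorem big_of_uncountable (k : Type u) [Field k] [IsAlgClosed k] [Uncountable k] : Big k := by
  intro S hS
  set F := Subfield.closure S with hF
  have h1 : #F ≤ ℵ₀ := by
    refine (Subfield.cardinalMk_closure_le_max S).trans (max_le ?_ le_rfl)
    exact (Cardinal.le_aleph0_iff_set_countable).2 hS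
  obtain ⟨s, hs⟩ := exists_isTranscendenceBasis F k
  have hinf : Infinite s := by
    by_contra hcon
    have hfin : Finite s := not_infinite_iff_finite.1 hcon
    have h2 := IsAlgClosed.cardinal_le_max_transcendence_basis' _ hs
    have h3 : #k ≤ ℵ₀ := h2.trans (max_le (max_le h1 (Cardinal.mk_le_aleph0)) le_rfl)
    exact absurd (Cardinal.mk_le_aleph0_iff.1 h3) (not_countable_iff.2 inferInstance)
  obtain ⟨e, he⟩ := Infinite.natEmbedding s
  exact ⟨fun i => ((e i : s) : k), hs.1.comp e he⟩

end Pool.Agent.TG9
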